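import Pool.Agent.Helper38.WM.St

set_option autoImplicit false

namespace Pool.Agent.Helper10.WM

open Pool.Agent.Helper38.WM

section

variable (p : ℕ) {X : Type} [DecidableEq X]

lemma fox_el_mul {S : Type} [Group S] (g h : S) : el p (g * h) = el p g * el p h := map_mul _ _ _

lemma fox_el_one {S : Type} [Group S] : el p (1 : S) = 1 := map_one _

lemma fox_el_inv {S : Type} [Group S] (g : S) : el p g * el p g⁻¹ = 1 := by
  rw [← fox_el_mul, mul_inv_cancel, fox_el_one]

lemma fox_el_inv' {S : Type} [Group S] (g : S) : el p g⁻¹ * el p g = 1 := by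
  rw [← fox_el_mul, inv_mul_cancel, fox_el_one]

/-- the matrix of a generator -/
noncomputable def foxU (x y : X) : (Matrix (Fin 2) (Fin 2) (GA p (FreeGroup X)))ˣ where
  val := !![el p (FreeGroup.of y), 0; if x = y then 1 else 0, 1]
  inv := !![el p (FreeGroup.of y)⁻¹, 0; if x = y then -el p (FreeGroup.of y)⁻¹ else 0, 1]
  val_inv := by
    have h := fox_el_inv p (FreeGroup.of y)
    generalize el p (FreeGroup.of y) = a at h ⊢
    generalize el p (FreeGroup.of y)⁻¹ = b at h ⊢
    rw [Matrix.mul_fin_two, Matrix.one_fin_two]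
    by_cases hxy : x = y
    · simp [hxy, h]
    · simp [hxy, h]
  inv_val := by
    have h := fox_el_inv' p (FreeGroup.of y)
    generalize el p (FreeGroup.of y) = a at h ⊢
    generalize el p (FreeGroup.of y)⁻¹ = b at h ⊢
    rw [Matrix.mul_fin_two, Matrix.one_fin_two]
    by_cases hxy : x = y
    · simp [hxy, h]
    · simp [hxy, h]

/-- the representation of the free group -/
noncomputable def foxM (x : X) : FreeGroup X →* (Matrix (Fin 2) (Fin 2) (GA p (FreeGroup X)))ˣ :=
  FreeGroup.lift (foxU p x)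

/-- the extension to the group algebra -/
noncomputable def foxP (x : X) :
    GA p (FreeGroup X) →ₐ[ZMod p] Matrix (Fin 2) (Fin 2) (GA p (FreeGroup X)) :=
  MonoidAlgebra.lift (ZMod p) _ _ ((Units.coeHom _).comp (foxM p x))

/-- the augmentation -/
noncomputable def foxE : GA p (FreeGroup X) →ₐ[ZMod p] ZMod p :=
  MonoidAlgebra.lift (ZMod p) _ _ 1

omit [DecidableEq X] in
lemma foxE_el (g : FreeGroup X) : foxE p (el p g) = 1 := by
  rw [foxE, el, MonoidAlgebra.lift_of]
  rfl

lemma foxP_el (x : X) (g : FreeGroup X) :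
    foxP p x (el p g) = ((foxM p x g : (Matrix (Fin 2) (Fin 2) (GA p (FreeGroup X)))ˣ) :
      Matrix (Fin 2) (Fin 2) (GA p (FreeGroup X))) := by
  rw [foxP, el, MonoidAlgebra.lift_of]
  rfl

lemma foxP_of (x y : X) : foxP p x (el p (FreeGroup.of y)) =
    !![el p (FreeGroup.of y), 0; if x = y then 1 else 0, 1] := by
  rw [foxP_el, foxM, FreeGroup.lift_apply_of]
  rfl

lemma foxP_inv (x y : X) : foxP p x (el p (FreeGroup.of y)⁻¹) =
    !![el p (FreeGroup.of y)⁻¹, 0; if x = y then -el p (FreeGroup.of y)⁻¹ else 0, 1] := by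
  rw [foxP_el, foxM, map_inv, FreeGroup.lift_apply_of]
  rfl

/-- the shape of the matrices, for group elements -/
lemma foxP_shape_el (x : X) (g : FreeGroup X) :
    foxP p x (el p g) 0 0 = el p g ∧ foxP p x (el p g) 0 1 = 0 ∧ foxP p x (el p g) 1 1 = 1 := by
  refine FreeGroup.induction_on g ?_ ?_ ?_ ?_
  · rw [fox_el_one, map_one]
    exact ⟨Matrix.one_apply_eq _, Matrix.one_apply_ne (by decide), Matrix.one_apply_eq _⟩
  · intro y
    rw [foxP_of]
    exact ⟨rfl, rfl, rfl⟩
  · intro y _
    rw [foxP_inv]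
    exact ⟨rfl, rfl, rfl⟩
  · intro g h hg hh
    rw [fox_el_mul, map_mul]
    refine ⟨?_, ?_, ?_⟩
    · rw [Matrix.mul_apply, Fin.sum_univ_two, hg.1, hg.2.1, hh.1, zero_mul, add_zero]
    · rw [Matrix.mul_apply, Fin.sum_univ_two, hg.2.1, hh.2.1, zero_mul, mul_zero, add_zero]
    · rw [Matrix.mul_apply, Fin.sum_univ_two, hh.2.1, hg.2.2, hh.2.2, mul_zero, zero_add, mul_one]

/-- the shape of the matrices -/
lemma foxP_shape (x : X) (f : GA p (FreeGroup X)) :
    foxP p x f 0 0 = f ∧ foxP p x f 0 1 = 0 ∧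
      foxP p x f 1 1 = algebraMap (ZMod p) _ (foxE p f) := by
  induction f using MonoidAlgebra.induction_on with
  | of g =>
    have h := foxP_shape_el p x g
    refine ⟨h.1, h.2.1, ?_⟩
    have h2 : foxE p (el p g) = 1 := foxE_el p g
    change foxP p x (el p g) 1 1 = algebraMap (ZMod p) _ (foxE p (el p g))
    rw [h2, map_one]
    exact h.2.2
  | add a b ha hb =>
    rw [map_add, map_add, map_add]
    refine ⟨?_, ?_, ?_⟩
    · rw [Matrix.add_apply, ha.1, hb.1]
    · rw [Matrix.add_apply, ha.2.1, hb.2.1, add_zero]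
    · rw [Matrix.add_apply, ha.2.2, hb.2.2]
  | smul r a ha =>
    rw [map_smul, map_smul]
    refine ⟨?_, ?_, ?_⟩
    · rw [Matrix.smul_apply, ha.1]
    · rw [Matrix.smul_apply, ha.2.1, smul_zero]
    · rw [Matrix.smul_apply, ha.2.2, smul_eq_mul, map_mul, Algebra.smul_def]

/-- the derivatives -/
noncomputable def foxD (x : X) : GA p (FreeGroup X) →ₗ[ZMod p] GA p (FreeGroup X) where
  toFun f := foxP p x f 1 0
  map_add' a b := by rw [map_add, Matrix.add_apply]
  map_smul' r a := by
    rw [map_smul, Matrix.smul_apply]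
    rfl

lemma foxD_apply (x : X) (f : GA p (FreeGroup X)) : foxD p x f = foxP p x f 1 0 := rfl

lemma foxD_leib (x : X) (f g : GA p (FreeGroup X)) :
    foxD p x (f * g) = foxD p x f * g + foxE p f • foxD p x g := by
  rw [foxD_apply, map_mul, Matrix.mul_apply, Fin.sum_univ_two, (foxP_shape p x g).1,
    (foxP_shape p x f).2.2, ← foxD_apply, ← foxD_apply, Algebra.smul_def]

lemma foxD_one (x : X) : foxD p x 1 = 0 := by
  rw [foxD_apply, map_one]
  exact Matrix.one_apply_ne (by decide)

lemma foxD_of (x y : X) : foxD p x (el p (FreeGroup.of y)) = if x = y then 1 else 0 := by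
  rw [foxD_apply, foxP_of]
  rfl

lemma foxD_inv (x y : X) : foxD p x (el p (FreeGroup.of y)⁻¹) =
    if x = y then -el p (FreeGroup.of y)⁻¹ else 0 := by
  rw [foxD_apply, foxP_inv]
  rfl

lemma foxD_decomp_el [Fintype X] (g : FreeGroup X) :
    el p g = 1 + ∑ x, (el p (FreeGroup.of x) - 1) * foxD p x (el p g) := by
  refine FreeGroup.induction_on g ?_ ?_ ?_ ?_
  · rw [fox_el_one]
    rw [Finset.sum_eq_zero (fun x _ => by rw [foxD_one, mul_zero]), add_zero]
  · intro y
    have h : ∀ x, (el p (FreeGroup.of x) - 1) * foxD p x (el p (FreeGroup.of y)) =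
        if x = y then el p (FreeGroup.of x) - 1 else 0 := by
      intro x
      rw [foxD_of, mul_ite, mul_one, mul_zero]
    rw [Finset.sum_congr rfl (fun x _ => h x), Finset.sum_ite_eq' Finset.univ y,
      if_pos (Finset.mem_univ y)]
    abel
  · intro y _
    have h : ∀ x, (el p (FreeGroup.of x) - 1) * foxD p x (el p (FreeGroup.of y)⁻¹) =
        if x = y then -((el p (FreeGroup.of y) - 1) * el p (FreeGroup.of y)⁻¹) else 0 := by
      intro x
      rw [foxD_inv]
      by_cases hxy : x = y
      · rw [if_pos hxy, if_pos hxy, hxy, mul_neg]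
      · rw [if_neg hxy, if_neg hxy, mul_zero]
    rw [Finset.sum_congr rfl (fun x _ => h x), Finset.sum_ite_eq' Finset.univ y,
      if_pos (Finset.mem_univ y), sub_mul, fox_el_inv, one_mul]
    abel
  · intro g h hg hh
    rw [fox_el_mul]
    have h1 : ∀ x, (el p (FreeGroup.of x) - 1) * foxD p x (el p g * el p h) =
        (el p (FreeGroup.of x) - 1) * foxD p x (el p g) * el p h +
          (el p (FreeGroup.of x) - 1) * foxD p x (el p h) := by
      intro x
      rw [foxD_leib, foxE_el, one_smul, mul_add, mul_assoc]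
    rw [Finset.sum_congr rfl (fun x _ => h1 x), Finset.sum_add_distrib, ← Finset.sum_mul]
    have h2 : ∑ x, (el p (FreeGroup.of x) - 1) * foxD p x (el p g) = el p g - 1 := by
      conv_rhs => rw [hg]
      abel
    have h3 : ∑ x, (el p (FreeGroup.of x) - 1) * foxD p x (el p h) = el p h - 1 := by
      conv_rhs => rw [hh]
      abel
    rw [h2, h3, sub_mul, one_mul]
    abel

lemma foxD_decomp [Fintype X] (f : GA p (FreeGroup X)) :
    f = algebraMap (ZMod p) _ (foxE p f) +
      ∑ x, (el p (FreeGroup.of x) - 1) * foxD p x f := by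
  induction f using MonoidAlgebra.induction_on with
  | of g =>
    change el p g = algebraMap (ZMod p) _ (foxE p (el p g)) +
      ∑ x, (el p (FreeGroup.of x) - 1) * foxD p x (el p g)
    rw [foxE_el, map_one]
    exact foxD_decomp_el p g
  | add a b ha hb =>
    have h1 : ∀ x, (el p (FreeGroup.of x) - 1) * foxD p x (a + b) =
        (el p (FreeGroup.of x) - 1) * foxD p x a + (el p (FreeGroup.of x) - 1) * foxD p x b := by
      intro x
      rw [map_add, mul_add]
    rw [map_add, map_add, Finset.sum_congr rfl (fun x _ => h1 x), Finset.sum_add_distrib]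
    conv_lhs => rw [ha, hb]
    abel
  | smul r a ha =>
    have h1 : ∀ x, (el p (FreeGroup.of x) - 1) * foxD p x (r • a) =
        r • ((el p (FreeGroup.of x) - 1) * foxD p x a) := by
      intro x
      rw [map_smul, mul_smul_comm]
    rw [map_smul, Finset.sum_congr rfl (fun x _ => h1 x), ← Finset.smul_sum, smul_eq_mul, map_mul,
      ← Algebra.smul_def]
    conv_lhs => rw [ha, smul_add]

end

/-- WM module FOX -/
theorem hFOX : StFOX := by
  intro p _ X _ _
  refine ⟨⟨foxE p, foxD p, foxE_el p, foxD_decomp p, fun x f g => foxD_leib p x f g, ?_⟩⟩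
  intro x y
  rw [map_sub, foxD_of, foxD_one, sub_zero]

end Pool.Agent.Helper10.WM
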